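import Pool.Agent.H66.Iso.Defs

/-!
# Module Near (about 120 lines)

Vectors which are nearly in a line or a plane of an orthonormal frame are in a line or a plane.

Proof. Let `N > 0` bound all `|v i a|` (so `|e k ⬝ᵥ v i| ≤ 3 N`, say; better: by Parseval
`sum_k (e k ⬝ᵥ v i)^2 = v i ⬝ᵥ v i`). The determinants `det (v i, v j, v k)` which are not `0` are
finitely many, so `|det| ≥ δ > 0` for all of them; the same for the nonzero Gram determinants
`(v i ⬝ᵥ v i) (v j ⬝ᵥ v j) - (v i ⬝ᵥ v j)^2 ≥ δ`, and `v i ⬝ᵥ v i ≥ δ`. With the matrix `O` of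
rows `e k` (orthogonal, `O Oᵀ = 1`, so `det O = ± 1`) the matrix `O (v i, v j, v k)` has the entries
`e a ⬝ᵥ v i`; if all `(e 2 ⬝ᵥ v ·)^2 < c` then `|det| ≤ 6 (3N)^2 √c < δ` for small `c`, so any three
of the vectors of `A2 = {i | (e 2 ⬝ᵥ v i)^2 < c}` are linearly dependent, hence all are in a plane
`span {x, y}` (take `x, y` two independent ones, if there are any): `h2`. In the same way the Gram
determinant of two vectors of `A1` is the sum of the squares of the `2 x 2` minors in the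
coordinates `e a ⬝ᵥ v i` and is small, so they are parallel: `h1`.

(The proof below uses instead the compactness of the set of orthonormal frames.)
-/

set_option autoImplicit false

namespace H66.Iso

open Matrix Finset

private def nearK : Set (Fin 3 → V) :=
  {e | ∀ i j, e i ⬝ᵥ e j = if i = j then 1 else 0}

private theorem nearK_cont (i j : Fin 3) : Continuous fun e : Fin 3 → V => e i ⬝ᵥ e j := by
  simp only [dotProduct]
  fun_prop

private theorem near_cont (i : Fin 3) (x : V) : Continuous fun e : Fin 3 → V => e i ⬝ᵥ x := by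
  simp only [dotProduct]
  fun_prop

private theorem nearK_compact : IsCompact nearK := by
  refine IsCompact.of_isClosed_subset (isCompact_closedBall (0 : Fin 3 → V) 1) ?_ ?_
  · have : nearK = ⋂ i : Fin 3, ⋂ j : Fin 3,
        {e : Fin 3 → V | e i ⬝ᵥ e j = if i = j then 1 else 0} := by
      ext e
      simp [nearK]
    rw [this]
    exact isClosed_iInter fun i => isClosed_iInter fun j =>
      isClosed_eq (nearK_cont i j) continuous_const
  · intro e he
    rw [mem_closedBall_zero_iff, pi_norm_le_iff_of_nonneg zero_le_one]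
    intro i
    rw [pi_norm_le_iff_of_nonneg zero_le_one]
    intro a
    have h := he i i
    rw [if_pos rfl] at h
    have h2 : e i a ^ 2 ≤ 1 := by
      rw [← h, dotProduct, pow_two]
      exact single_le_sum (f := fun a => e i a * e i a) (fun b _ => mul_self_nonneg _) (mem_univ a)
    rw [Real.norm_eq_abs]
    exact abs_le_one_iff_mul_self_le_one.2 (by nlinarith [h2])

private theorem near_min (F : (Fin 3 → V) → ℝ) (hF : Continuous F) (hpos : ∀ e ∈ nearK, 0 < F e) :
    ∃ c : ℝ, 0 < c ∧ ∀ e ∈ nearK, c ≤ F e := by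
  rcases nearK.eq_empty_or_nonempty with h | h
  · exact ⟨1, one_pos, fun e he => by rw [h] at he; exact absurd he (Set.notMem_empty e)⟩
  · obtain ⟨e, he, hmin⟩ := nearK_compact.exists_isMinOn h hF.continuousOn
    exact ⟨F e, hpos e he, fun e' he' => hmin he'⟩

private theorem near_expand {e : Fin 3 → V} (he : e ∈ nearK) (x : V) :
    x = ∑ k, (e k ⬝ᵥ x) • e k := by
  let O : Matrix (Fin 3) (Fin 3) ℝ := Matrix.of e
  have h1 : O * Oᵀ = 1 := by
    ext i j
    rw [Matrix.mul_apply, Matrix.one_apply, ← he i j]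
    rfl
  have h2 : Oᵀ * O = 1 := _root_.mul_eq_one_comm.1 h1
  have h3 : x = Oᵀ *ᵥ (O *ᵥ x) := by rw [Matrix.mulVec_mulVec, h2, Matrix.one_mulVec]
  conv_lhs => rw [h3]
  rw [Matrix.mulVec_transpose, Matrix.vecMul_eq_sum]
  rfl

open Classical in
theorem near {ι : Type} [Fintype ι] (v : ι → V) (hv : ∀ i, v i ≠ 0)
    (h1 : ∀ x : V, 3 * (univ.filter fun i => v i ∈ Submodule.span ℝ {x}).card ≤ Fintype.card ι)
    (h2 : ∀ x y : V, 3 * (univ.filter fun i => v i ∈ Submodule.span ℝ {x, y}).card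
      ≤ 2 * Fintype.card ι) :
    ∃ c : ℝ, 0 < c ∧ ∀ e : Fin 3 → V, (∀ i j, e i ⬝ᵥ e j = if i = j then 1 else 0) →
      (∀ i, c ≤ (e 0 ⬝ᵥ v i) ^ 2 ∨ c ≤ (e 1 ⬝ᵥ v i) ^ 2 ∨ c ≤ (e 2 ⬝ᵥ v i) ^ 2) ∧
      3 * (univ.filter fun i => (e 1 ⬝ᵥ v i) ^ 2 < c ∧ (e 2 ⬝ᵥ v i) ^ 2 < c).card
        ≤ Fintype.card ι ∧
      3 * (univ.filter fun i => (e 2 ⬝ᵥ v i) ^ 2 < c).card ≤ 2 * Fintype.card ι := by
  classical
  -- the three minima
  have hA : ∀ i : ι, ∃ c : ℝ, 0 < c ∧ ∀ e ∈ nearK, c ≤ ∑ k, (e k ⬝ᵥ v i) ^ 2 := by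
    intro i
    apply near_min
    · exact continuous_finsetSum _ fun k _ => (near_cont k (v i)).pow 2
    · intro e he
      refine lt_of_le_of_ne (sum_nonneg fun k _ => sq_nonneg _) fun h0 => hv i ?_
      have h3 := (sum_eq_zero_iff_of_nonneg (fun k _ => sq_nonneg (e k ⬝ᵥ v i))).1 h0.symm
      rw [near_expand he (v i)]
      exact sum_eq_zero fun k hk => by rw [pow_eq_zero_iff two_ne_zero |>.1 (h3 k hk), zero_smul]
  have hB : ∀ S : Finset ι, ∃ c : ℝ, 0 < c ∧ ∀ e ∈ nearK, Fintype.card ι < 3 * S.card →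
      c ≤ ∑ i ∈ S, ((e 1 ⬝ᵥ v i) ^ 2 + (e 2 ⬝ᵥ v i) ^ 2) := by
    intro S
    by_cases hS : Fintype.card ι < 3 * S.card
    · obtain ⟨c, hc, h⟩ := near_min (fun e => ∑ i ∈ S, ((e 1 ⬝ᵥ v i) ^ 2 + (e 2 ⬝ᵥ v i) ^ 2))
        (continuous_finsetSum _ fun i _ =>
          ((near_cont 1 (v i)).pow 2).add ((near_cont 2 (v i)).pow 2))
        (by
          intro e he
          refine lt_of_le_of_ne (sum_nonneg fun k _ => by positivity) fun h0 => ?_
          have h3 := (sum_eq_zero_iff_of_nonneg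
            (fun k _ => by positivity : ∀ k ∈ S, 0 ≤ (e 1 ⬝ᵥ v k) ^ 2 + (e 2 ⬝ᵥ v k) ^ 2)).1 h0.symm
          have h4 : S ⊆ univ.filter fun i => v i ∈ Submodule.span ℝ {e 0} := by
            intro i hi
            rw [mem_filter]
            refine ⟨mem_univ _, ?_⟩
            have h5 := h3 i hi
            have h6 : e 1 ⬝ᵥ v i = 0 := by nlinarith [sq_nonneg (e 1 ⬝ᵥ v i), sq_nonneg (e 2 ⬝ᵥ v i)]
            have h7 : e 2 ⬝ᵥ v i = 0 := by nlinarith [sq_nonneg (e 1 ⬝ᵥ v i), sq_nonneg (e 2 ⬝ᵥ v i)]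
            rw [near_expand he (v i), Fin.sum_univ_three, h6, h7, zero_smul, zero_smul, add_zero,
              add_zero]
            exact Submodule.smul_mem _ _ (Submodule.mem_span_singleton_self _)
          have h5 := card_le_card h4
          have h6 := h1 (e 0)
          omega)
      exact ⟨c, hc, fun e he _ => h e he⟩
    · exact ⟨1, one_pos, fun e _ h => absurd h hS⟩
  have hC : ∀ S : Finset ι, ∃ c : ℝ, 0 < c ∧ ∀ e ∈ nearK, 2 * Fintype.card ι < 3 * S.card →
      c ≤ ∑ i ∈ S, (e 2 ⬝ᵥ v i) ^ 2 := by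
    intro S
    by_cases hS : 2 * Fintype.card ι < 3 * S.card
    · obtain ⟨c, hc, h⟩ := near_min (fun e => ∑ i ∈ S, (e 2 ⬝ᵥ v i) ^ 2)
        (continuous_finsetSum _ fun i _ => (near_cont 2 (v i)).pow 2)
        (by
          intro e he
          refine lt_of_le_of_ne (sum_nonneg fun k _ => by positivity) fun h0 => ?_
          have h3 := (sum_eq_zero_iff_of_nonneg
            (fun k _ => by positivity : ∀ k ∈ S, 0 ≤ (e 2 ⬝ᵥ v k) ^ 2)).1 h0.symm
          have h4 : S ⊆ univ.filter fun i => v i ∈ Submodule.span ℝ {e 0, e 1} := by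
            intro i hi
            rw [mem_filter]
            refine ⟨mem_univ _, ?_⟩
            have h7 : e 2 ⬝ᵥ v i = 0 := pow_eq_zero_iff two_ne_zero |>.1 (h3 i hi)
            rw [near_expand he (v i), Fin.sum_univ_three, h7, zero_smul, add_zero]
            exact Submodule.add_mem _
              (Submodule.smul_mem _ _ (Submodule.subset_span (by simp)))
              (Submodule.smul_mem _ _ (Submodule.subset_span (by simp)))
          have h5 := card_le_card h4
          have h6 := h2 (e 0) (e 1)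
          omega)
      exact ⟨c, hc, fun e he _ => h e he⟩
    · exact ⟨1, one_pos, fun e _ h => absurd h hS⟩
  choose cA hA0 hA1 using hA
  choose cB hB0 hB1 using hB
  choose cC hC0 hC1 using hC
  -- one constant below all of them
  have hmin : ∀ {κ : Type} [Fintype κ] (f : κ → ℝ), (∀ i, 0 < f i) → ∃ c : ℝ, 0 < c ∧
      ∀ i, c ≤ f i := by
    intro κ _ f hf
    rcases isEmpty_or_nonempty κ with h | h
    · exact ⟨1, one_pos, fun i => (h.false i).elim⟩
    · obtain ⟨i, _, hi⟩ := exists_min_image (univ : Finset κ) f univ_nonempty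
      exact ⟨f i, hf i, fun j => hi j (mem_univ j)⟩
  obtain ⟨dA, hdA0, hdA⟩ := hmin cA hA0
  obtain ⟨dB, hdB0, hdB⟩ := hmin cB hB0
  obtain ⟨dC, hdC0, hdC⟩ := hmin cC hC0
  set n : ℝ := (Fintype.card ι : ℝ) with hn
  have hn0 : 0 ≤ n := by positivity
  set d : ℝ := min dA (min dB dC) with hd
  have hd0 : 0 < d := lt_min hdA0 (lt_min hdB0 hdC0)
  have hd1 : d ≤ dA := min_le_left _ _
  have hd2 : d ≤ dB := (min_le_right _ _).trans (min_le_left _ _)
  have hd3 : d ≤ dC := (min_le_right _ _).trans (min_le_right _ _)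
  have hc : (d / (3 * (n + 1))) * (3 * (n + 1)) = d := by field_simp
  refine ⟨d / (3 * (n + 1)), by positivity, fun e he => ⟨fun i => ?_, ?_, ?_⟩⟩
  · by_contra hcon
    push Not at hcon
    obtain ⟨g0, g1, g2⟩ := hcon
    have h3 := (hd1.trans (hdA i)).trans (hA1 i e he)
    rw [Fin.sum_univ_three] at h3
    have h4 : 0 ≤ d / (3 * (n + 1)) * n := by positivity
    nlinarith
  · by_contra hcon
    push Not at hcon
    set S := univ.filter fun i => (e 1 ⬝ᵥ v i) ^ 2 < d / (3 * (n + 1)) ∧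
      (e 2 ⬝ᵥ v i) ^ 2 < d / (3 * (n + 1)) with hS
    have h3 := (hd2.trans (hdB S)).trans (hB1 S e he hcon)
    have h4 : ∑ i ∈ S, ((e 1 ⬝ᵥ v i) ^ 2 + (e 2 ⬝ᵥ v i) ^ 2) ≤
        ∑ _i ∈ S, 2 * (d / (3 * (n + 1))) := by
      refine sum_le_sum fun i hi => ?_
      have := (mem_filter.1 hi).2
      linarith [this.1, this.2]
    rw [sum_const, nsmul_eq_mul] at h4
    have h5 : (S.card : ℝ) ≤ n := Nat.cast_le.2 (card_le_univ S)
    have h6 : 0 < d / (3 * (n + 1)) := by positivity
    nlinarith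
  · by_contra hcon
    push Not at hcon
    set S := univ.filter fun i => (e 2 ⬝ᵥ v i) ^ 2 < d / (3 * (n + 1)) with hS
    have h3 := (hd3.trans (hdC S)).trans (hC1 S e he hcon)
    have h4 : ∑ i ∈ S, (e 2 ⬝ᵥ v i) ^ 2 ≤ ∑ _i ∈ S, (d / (3 * (n + 1))) := by
      refine sum_le_sum fun i hi => ?_
      have := (mem_filter.1 hi).2
      linarith [this]
    rw [sum_const, nsmul_eq_mul] at h4
    have h5 : (S.card : ℝ) ≤ n := Nat.cast_le.2 (card_le_univ S)
    have h6 : 0 < d / (3 * (n + 1)) := by positivity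
    nlinarith

end H66.Iso
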