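import Pool.Agent.H66.Iso.Spec
import Pool.Agent.H66.Iso.Near

/-!
# Module Low (about 80 lines)

The function `sum_i log (v i, X v i) - (n/3) log det X` is bounded below on the positive definite
matrices.

Proof. `c` from `near` (apply it to `v`), `e, l` from `spec X`. Put `A2 = {i | (e 2 ⬝ᵥ v i)^2 < c}`,
`A1 = {i | (e 1 ⬝ᵥ v i)^2 < c ∧ (e 2 ⬝ᵥ v i)^2 < c}`, `A1 ⊆ A2`. Then `qf X (v i) (v i) ≥ c l 2` for
`i ∉ A2`, `≥ c l 1` for `i ∈ A2 \ A1` and `≥ c l 0` for `i ∈ A1`. So the sum of the logarithms is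
at least `n log c + (n - a2) log (l 2) + (a2 - a1) log (l 1) + a1 log (l 0)`, with
`3 a2 ≤ 2 n`, `3 a1 ≤ n`, `a1 ≤ a2`, and
`(n - a2) L2 + (a2 - a1) L1 + a1 L0 - (n/3)(L0 + L1 + L2)
  = (2n/3 - a2)(L2 - L1) + (n/3 - a1)(L1 - L0) ≥ 0`. Take `C = n log c`.
-/

set_option autoImplicit false

namespace H66.Iso

open Matrix Finset

open Classical in
theorem low {ι : Type} [Fintype ι] (v : ι → V) (hv : ∀ i, v i ≠ 0)
    (h1 : ∀ x : V, 3 * (univ.filter fun i => v i ∈ Submodule.span ℝ {x}).card ≤ Fintype.card ι)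
    (h2 : ∀ x y : V, 3 * (univ.filter fun i => v i ∈ Submodule.span ℝ {x, y}).card
      ≤ 2 * Fintype.card ι) :
    ∃ C : ℝ, ∀ X : Matrix (Fin 3) (Fin 3) ℝ, X.PosDef →
      C + (Fintype.card ι : ℝ) / 3 * Real.log X.det ≤ ∑ i, Real.log (qf X (v i) (v i)) := by
  obtain ⟨c, hc, hnear⟩ := near v hv h1 h2
  refine ⟨(Fintype.card ι : ℝ) * Real.log c, fun X hX => ?_⟩
  obtain ⟨e, l, he, hl0, hl1, hl2, hdet, hq⟩ := spec X hX
  obtain ⟨hn1, hn2, hn3⟩ := hnear e he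
  have hl1' : 0 < l 1 := lt_of_lt_of_le hl0 hl1
  have hl2' : 0 < l 2 := lt_of_lt_of_le hl1' hl2
  have hL1 : Real.log (l 0) ≤ Real.log (l 1) := Real.log_le_log hl0 hl1
  have hL2 : Real.log (l 1) ≤ Real.log (l 2) := Real.log_le_log hl1' hl2
  have hdet' : Real.log X.det = Real.log (l 0) + Real.log (l 1) + Real.log (l 2) := by
    rw [hdet, Real.log_mul (mul_pos hl0 hl1').ne' hl2'.ne', Real.log_mul hl0.ne' hl1'.ne']
  have key : ∀ i : ι, Real.log c + (Real.log (l 2)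
      - (if (e 2 ⬝ᵥ v i) ^ 2 < c then Real.log (l 2) - Real.log (l 1) else 0)
      - (if (e 1 ⬝ᵥ v i) ^ 2 < c ∧ (e 2 ⬝ᵥ v i) ^ 2 < c then Real.log (l 1) - Real.log (l 0) else 0))
      ≤ Real.log (qf X (v i) (v i)) := by
    intro i
    have hqi := hq (v i)
    have p0 : 0 ≤ (e 0 ⬝ᵥ v i) ^ 2 := sq_nonneg _
    have p1 : 0 ≤ (e 1 ⬝ᵥ v i) ^ 2 := sq_nonneg _
    have p2 : 0 ≤ (e 2 ⬝ᵥ v i) ^ 2 := sq_nonneg _
    have m0 := mul_nonneg hl0.le p0
    have m1 := mul_nonneg hl1'.le p1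
    have m2 := mul_nonneg hl2'.le p2
    by_cases h2c : (e 2 ⬝ᵥ v i) ^ 2 < c
    · by_cases h1c : (e 1 ⬝ᵥ v i) ^ 2 < c
      · have h0c : c ≤ (e 0 ⬝ᵥ v i) ^ 2 := by
          rcases hn1 i with h | h | h
          · exact h
          · exact absurd h1c (not_lt.2 h)
          · exact absurd h2c (not_lt.2 h)
        have h3 : l 0 * c ≤ qf X (v i) (v i) := by
          have := mul_le_mul_of_nonneg_left h0c hl0.le
          rw [hqi]
          linarith
        have h4 := Real.log_le_log (mul_pos hl0 hc) h3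
        rw [Real.log_mul hl0.ne' hc.ne'] at h4
        simp only [h2c, h1c, and_self, if_true]
        linarith
      · have h1c' : c ≤ (e 1 ⬝ᵥ v i) ^ 2 := not_lt.1 h1c
        have h3 : l 1 * c ≤ qf X (v i) (v i) := by
          have := mul_le_mul_of_nonneg_left h1c' hl1'.le
          rw [hqi]
          linarith
        have h4 := Real.log_le_log (mul_pos hl1' hc) h3
        rw [Real.log_mul hl1'.ne' hc.ne'] at h4
        simp only [h2c, h1c, false_and, if_true, if_false]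
        linarith
    · have h2c' : c ≤ (e 2 ⬝ᵥ v i) ^ 2 := not_lt.1 h2c
      have h3 : l 2 * c ≤ qf X (v i) (v i) := by
        have := mul_le_mul_of_nonneg_left h2c' hl2'.le
        rw [hqi]
        linarith
      have h4 := Real.log_le_log (mul_pos hl2' hc) h3
      rw [Real.log_mul hl2'.ne' hc.ne'] at h4
      simp only [h2c, and_false, if_false]
      linarith
  have hsum := Finset.sum_le_sum (fun i (_ : i ∈ (univ : Finset ι)) => key i)
  have e1 : ∑ i : ι, (if (e 2 ⬝ᵥ v i) ^ 2 < c then Real.log (l 2) - Real.log (l 1) else 0)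
      = ((univ.filter fun i => (e 2 ⬝ᵥ v i) ^ 2 < c).card : ℝ)
        * (Real.log (l 2) - Real.log (l 1)) := by
    rw [← Finset.sum_filter, Finset.sum_const, nsmul_eq_mul]
  have e2 : ∑ i : ι, (if (e 1 ⬝ᵥ v i) ^ 2 < c ∧ (e 2 ⬝ᵥ v i) ^ 2 < c
        then Real.log (l 1) - Real.log (l 0) else 0)
      = ((univ.filter fun i => (e 1 ⬝ᵥ v i) ^ 2 < c ∧ (e 2 ⬝ᵥ v i) ^ 2 < c).card : ℝ)
        * (Real.log (l 1) - Real.log (l 0)) := by
    rw [← Finset.sum_filter, Finset.sum_const, nsmul_eq_mul]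
  rw [Finset.sum_add_distrib, Finset.sum_sub_distrib, Finset.sum_sub_distrib, e1, e2,
    Finset.sum_const, Finset.sum_const, nsmul_eq_mul, nsmul_eq_mul, Finset.card_univ] at hsum
  rw [hdet']
  have a1 : 3 * ((univ.filter fun i => (e 1 ⬝ᵥ v i) ^ 2 < c ∧ (e 2 ⬝ᵥ v i) ^ 2 < c).card : ℝ)
      ≤ (Fintype.card ι : ℝ) := by exact_mod_cast hn2
  have a2 : 3 * ((univ.filter fun i => (e 2 ⬝ᵥ v i) ^ 2 < c).card : ℝ)
      ≤ 2 * (Fintype.card ι : ℝ) := by exact_mod_cast hn3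
  have b1 := mul_nonneg (sub_nonneg.2 a1) (sub_nonneg.2 hL1)
  have b2 := mul_nonneg (sub_nonneg.2 a2) (sub_nonneg.2 hL2)
  refine le_trans ?_ hsum
  nlinarith [b1, b2]

end H66.Iso
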