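import Pool.Agent.H66.Iso.Upd

/-!
# Module Pos (about 100 lines)

Approximate isotropic position: near minimisers of
`F X = sum_i log (v i, X v i) - (n/3) log det X` (bounded below by `hlow`) are nearly isotropic.

Proof. Let `I` be the infimum of `F` over the positive definite matrices (bounded below, nonempty),
`n = card ι`. Given `ε > 0` choose `0 < s < 1` with `n/3/(1 - s) + s ≤ n/3 + ε`, and `X` positive
definite with `F X ≤ I + s^2`. Let `y` be a vector; for `y = 0` both sides are `0`, otherwise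
scale to `qf X y y = 1`. With `X'` from `upd`: `qf X' (v i) (v i) = qf X (v i) (v i) (1 - s x_i)`,
`x_i = (qf X (v i) y)^2 / qf X (v i) (v i) ∈ [0, 1]`, so `F X' = F X + sum_i log (1 - s x_i)
 - (n/3) log (1 - s) ≤ F X - s sum x_i - (n/3) log (1 - s)` (`Real.log_le_sub_one_of_pos`), and
`F X' ≥ I ≥ F X - s^2`. So `s sum x_i ≤ s^2 - (n/3) log (1 - s) ≤ s^2 + (n/3) s/(1 - s)`
(`-log (1 - s) = log (1/(1-s)) ≤ 1/(1-s) - 1 = s/(1-s)`), hence
`sum x_i ≤ s + (n/3)/(1-s) ≤ n/3 + ε`.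
-/

set_option autoImplicit false

namespace H66.Iso

open Matrix Finset

theorem iso_pos {ι : Type} [Fintype ι] (v : ι → V) (hv : ∀ i, v i ≠ 0)
    (hlow : ∃ C : ℝ, ∀ X : Matrix (Fin 3) (Fin 3) ℝ, X.PosDef →
      C + (Fintype.card ι : ℝ) / 3 * Real.log X.det ≤ ∑ i, Real.log (qf X (v i) (v i)))
    (ε : ℝ) (hε : 0 < ε) :
    ∃ X : Matrix (Fin 3) (Fin 3) ℝ, X.PosDef ∧ ∀ y : V,
      ∑ i, (qf X (v i) y) ^ 2 / qf X (v i) (v i)
        ≤ ((Fintype.card ι : ℝ) / 3 + ε) * qf X y y := by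
  obtain ⟨C, hC⟩ := hlow
  have hn0 : (0 : ℝ) ≤ (Fintype.card ι : ℝ) / 3 := by positivity
  generalize (Fintype.card ι : ℝ) / 3 = n at hC hn0 ⊢
  let F : Matrix (Fin 3) (Fin 3) ℝ → ℝ := fun X =>
    ∑ i, Real.log (qf X (v i) (v i)) - n * Real.log X.det
  let S : Set ℝ := F '' {X | X.PosDef}
  have hbdd : BddBelow S := by
    refine ⟨C, ?_⟩
    rintro _ ⟨X, hX, rfl⟩
    have := hC X hX
    simp only [F]
    linarith
  have hne : S.Nonempty := ⟨F 1, 1, Matrix.PosDef.one, rfl⟩
  obtain ⟨s, hs0, hs1, hs⟩ : ∃ s : ℝ, 0 < s ∧ s < 1 ∧ n / (1 - s) + s ≤ n + ε := by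
    have h2 : 0 < 2 * n + 1 := by linarith
    have h3 : 0 < ε / (2 * n + 1) := div_pos hε h2
    refine ⟨min (1 / 2) (ε / (2 * n + 1)), lt_min (by norm_num) h3,
      lt_of_le_of_lt (min_le_left _ _) (by norm_num), ?_⟩
    have h4 : min (1 / 2) (ε / (2 * n + 1)) ≤ 1 / 2 := min_le_left _ _
    have h5 : min (1 / 2) (ε / (2 * n + 1)) ≤ ε / (2 * n + 1) := min_le_right _ _
    have h6 : 0 < min (1 / 2) (ε / (2 * n + 1)) := lt_min (by norm_num) h3
    generalize min (1 / 2) (ε / (2 * n + 1)) = t at h4 h5 h6 ⊢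
    have h7 : t * (2 * n + 1) ≤ ε := (le_div_iff₀ h2).1 h5
    have h8 : n / (1 - t) ≤ n + 2 * n * t := by
      rw [div_le_iff₀ (by linarith)]
      nlinarith [mul_nonneg hn0 h6.le, mul_nonneg (mul_nonneg hn0 h6.le)
        (show (0 : ℝ) ≤ 1 - 2 * t by linarith)]
    linarith
  obtain ⟨_, ⟨X, hX, rfl⟩, hXI⟩ := Real.lt_sInf_add_pos hne (show 0 < s ^ 2 by positivity)
  have hX : X.PosDef := hX
  have key : ∀ y : V, qf X y y = 1 →
      ∑ i, (qf X (v i) y) ^ 2 / qf X (v i) (v i) ≤ n + ε := by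
    intro y hy
    obtain ⟨X', hX', hdet, hq⟩ := upd X hX y hy s hs0 hs1
    have hI : sInf S ≤ F X' := csInf_le hbdd ⟨X', hX', rfl⟩
    have hvpos : ∀ i, 0 < qf X (v i) (v i) := fun i => qf_pos hX (hv i)
    have hx1 : ∀ i, (qf X (v i) y) ^ 2 / qf X (v i) (v i) ≤ 1 := by
      intro i
      rw [div_le_one (hvpos i)]
      have := qf_cs hX (v i) y
      rw [hy, mul_one] at this
      exact this
    have hx0 : ∀ i, 0 ≤ (qf X (v i) y) ^ 2 / qf X (v i) (v i) := fun i =>
      div_nonneg (sq_nonneg _) (hvpos i).le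
    have hterm : ∀ i, Real.log (qf X' (v i) (v i)) ≤ Real.log (qf X (v i) (v i))
        - s * ((qf X (v i) y) ^ 2 / qf X (v i) (v i)) := by
      intro i
      have e1 : qf X' (v i) (v i) = qf X (v i) (v i)
          * (1 - s * ((qf X (v i) y) ^ 2 / qf X (v i) (v i))) := by
        rw [hq, qf_symm hX y (v i)]
        have := (hvpos i).ne'
        field_simp
      have e2 : 0 < 1 - s * ((qf X (v i) y) ^ 2 / qf X (v i) (v i)) := by
        have := mul_le_mul_of_nonneg_left (hx1 i) hs0.le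
        linarith
      rw [e1, Real.log_mul (hvpos i).ne' e2.ne']
      have e3 := Real.log_le_sub_one_of_pos e2
      linarith
    have hsum : ∑ i, Real.log (qf X' (v i) (v i)) ≤ ∑ i, Real.log (qf X (v i) (v i))
        - s * ∑ i, (qf X (v i) y) ^ 2 / qf X (v i) (v i) := by
      rw [Finset.mul_sum, ← Finset.sum_sub_distrib]
      exact Finset.sum_le_sum fun i _ => hterm i
    have hld : Real.log X'.det = Real.log (1 - s) + Real.log X.det := by
      rw [hdet, Real.log_mul (by linarith) hX.det_pos.ne']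
    have hFX : F X = ∑ i, Real.log (qf X (v i) (v i)) - n * Real.log X.det := rfl
    have hFX' : F X' = ∑ i, Real.log (qf X' (v i) (v i)) - n * Real.log X'.det := rfl
    have h1s : 0 < 1 - s := by linarith
    have hlog : - Real.log (1 - s) ≤ s / (1 - s) := by
      have := Real.one_sub_inv_le_log_of_pos h1s
      have e : 1 - (1 - s)⁻¹ = - (s / (1 - s)) := by
        field_simp
        ring
      linarith
    have hlogn : - (n * Real.log (1 - s)) ≤ n * (s / (1 - s)) := by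
      have := mul_le_mul_of_nonneg_left hlog hn0
      linarith
    have hmain : s * ∑ i, (qf X (v i) y) ^ 2 / qf X (v i) (v i)
        ≤ s ^ 2 + n * (s / (1 - s)) := by
      rw [hFX', hld] at hI
      rw [hFX] at hXI
      linarith [mul_add n (Real.log (1 - s)) (Real.log X.det)]
    have hfac : s ^ 2 + n * (s / (1 - s)) = s * (n / (1 - s) + s) := by
      field_simp
      ring
    rw [hfac] at hmain
    exact (le_of_mul_le_mul_left hmain hs0).trans hs
  refine ⟨X, hX, fun y => ?_⟩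
  by_cases hy : y = 0
  · subst hy
    simp [qf]
  · have hyy : 0 < qf X y y := qf_pos hX hy
    have hsq : Real.sqrt (qf X y y) * Real.sqrt (qf X y y) = qf X y y :=
      Real.mul_self_sqrt hyy.le
    have hsp : 0 < Real.sqrt (qf X y y) := Real.sqrt_pos.2 hyy
    have hk := key ((Real.sqrt (qf X y y))⁻¹ • y) (by
      rw [qf_smul_left, qf_smul_right]
      have h := hsp.ne'
      calc (Real.sqrt (qf X y y))⁻¹ * ((Real.sqrt (qf X y y))⁻¹ * qf X y y)
          = (Real.sqrt (qf X y y))⁻¹ * ((Real.sqrt (qf X y y))⁻¹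
            * (Real.sqrt (qf X y y) * Real.sqrt (qf X y y))) := by rw [hsq]
        _ = 1 := by field_simp)
    have e : ∀ i, (qf X (v i) ((Real.sqrt (qf X y y))⁻¹ • y)) ^ 2 / qf X (v i) (v i)
        = (qf X y y)⁻¹ * ((qf X (v i) y) ^ 2 / qf X (v i) (v i)) := by
      intro i
      have hi : (Real.sqrt (qf X y y))⁻¹ ^ 2 = (qf X y y)⁻¹ := by
        rw [inv_pow, pow_two, hsq]
      rw [qf_smul_right, mul_pow, hi, mul_div_assoc]
    rw [Finset.sum_congr rfl fun i _ => e i, ← Finset.mul_sum] at hk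
    rw [inv_mul_le_iff₀ hyy] at hk
    linarith

end H66.Iso
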