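import Pool.Agent.H66.Iso.Defs

/-!
# Module Cmb (about 80 lines)

Double counting over a linear space.

Proof. Sum `hl` over `L`. By `h1` the sum over `l ∈ L` of the sum over `i ∈ r l`, `k ∈ b l` of `H i k`
is the sum over all pairs, and the sum of `card (r l) * card (b l)` is `card ι * card κ`
(apply it to `H = 1`). The diagonal terms: `sum_{i, i' ∈ r l} G i i' = card (r l)
 + sum_{i ≠ i'} G i i'`, and by `h2` the sum over `l` of the second sum is
`sum_{i ≠ i'} G i i' = sum_{i, i'} G i i' - card ι`.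
-/

set_option autoImplicit false

namespace H66.Iso

open Finset

private theorem cmb_swap {ι κ Λ : Type} [Fintype ι] [Fintype κ] (L : Finset Λ)
    (a : Λ → Finset ι) (b : Λ → Finset κ) (F : ι → κ → ℝ)
    (h : ∀ i k, F i k ≠ 0 → ∃! l, l ∈ L ∧ i ∈ a l ∧ k ∈ b l) :
    ∑ l ∈ L, ∑ i ∈ a l, ∑ k ∈ b l, F i k = ∑ i, ∑ k, F i k := by
  classical
  have h1 : ∀ l, ∑ i ∈ a l, ∑ k ∈ b l, F i k =
      ∑ i, ∑ k, if i ∈ a l ∧ k ∈ b l then F i k else 0 := by
    intro l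
    rw [← Finset.sum_subset (Finset.subset_univ (a l))]
    · refine Finset.sum_congr rfl fun i hi => ?_
      rw [← Finset.sum_subset (Finset.subset_univ (b l))]
      · refine Finset.sum_congr rfl fun k hk => ?_
        rw [if_pos ⟨hi, hk⟩]
      · intro k _ hk
        rw [if_neg (fun hc => hk hc.2)]
    · intro i _ hi
      refine Finset.sum_eq_zero fun k _ => ?_
      rw [if_neg (fun hc => hi hc.1)]
  rw [Finset.sum_congr rfl fun l _ => h1 l, Finset.sum_comm]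
  refine Finset.sum_congr rfl fun i _ => ?_
  rw [Finset.sum_comm]
  refine Finset.sum_congr rfl fun k _ => ?_
  by_cases hF : F i k = 0
  · rw [hF]
    exact Finset.sum_eq_zero fun l _ => by split_ifs <;> rfl
  · obtain ⟨l, ⟨hl, hil, hkl⟩, hu⟩ := h i k hF
    rw [Finset.sum_eq_single l]
    · rw [if_pos ⟨hil, hkl⟩]
    · intro l' hl' hne
      rw [if_neg]
      rintro ⟨hi, hk⟩
      exact hne (hu l' ⟨hl', hi, hk⟩)
    · intro hc
      exact absurd hl hc

private theorem cmb_diag {ι : Type} (s : Finset ι) (G : ι → ι → ℝ)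
    (G' : ι → ι → ℝ) (h : ∀ i, G' i i = G i i - 1) (h' : ∀ i j, i ≠ j → G' i j = G i j) :
    ∑ i ∈ s, ∑ i' ∈ s, G i i' = ∑ i ∈ s, ∑ i' ∈ s, G' i i' + s.card := by
  classical
  have : ∀ i ∈ s, ∑ i' ∈ s, G i i' = ∑ i' ∈ s, G' i i' + 1 := by
    intro i hi
    rw [← Finset.add_sum_erase s (G i) hi, ← Finset.add_sum_erase s (G' i) hi, h i]
    have : ∑ x ∈ s.erase i, G i x = ∑ x ∈ s.erase i, G' i x :=
      Finset.sum_congr rfl fun x hx => (h' i x (Finset.ne_of_mem_erase hx).symm).symm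
    rw [this]
    ring
  rw [Finset.sum_congr rfl this, Finset.sum_add_distrib]
  simp

theorem comb {ι κ Λ : Type} [Fintype ι] [Fintype κ] (L : Finset Λ) (r : Λ → Finset ι)
    (b : Λ → Finset κ)
    (h1 : ∀ i k, ∃! l, l ∈ L ∧ i ∈ r l ∧ k ∈ b l)
    (h2 : ∀ i i', i ≠ i' → ∃! l, l ∈ L ∧ i ∈ r l ∧ i' ∈ r l)
    (G : ι → ι → ℝ) (H : ι → κ → ℝ) (hG : ∀ i, G i i = 1) (c : ℝ)
    (hl : ∀ l ∈ L, - ∑ i ∈ r l, ∑ k ∈ b l, H i k - c * ∑ i ∈ r l, ∑ i' ∈ r l, G i i'
      + c * (r l).card ≤ ((r l).card : ℝ) * (b l).card) :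
    - ∑ i, ∑ k, H i k - c * (∑ i, ∑ i', G i i' - Fintype.card ι)
      ≤ (Fintype.card ι : ℝ) * Fintype.card κ := by
  classical
  let G' : ι → ι → ℝ := fun i j => if i = j then G i i - 1 else G i j
  have hG1 : ∀ i, G' i i = G i i - 1 := fun i => if_pos rfl
  have hG2 : ∀ i j, i ≠ j → G' i j = G i j := fun i j hij => if_neg hij
  have hG0 : ∀ i, G' i i = 0 := fun i => by rw [hG1, hG, sub_self]
  have e1 : ∑ l ∈ L, ∑ i ∈ r l, ∑ k ∈ b l, H i k = ∑ i, ∑ k, H i k :=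
    cmb_swap L r b H fun i k _ => h1 i k
  have e2 : ∑ l ∈ L, ((r l).card : ℝ) * (b l).card =
      (Fintype.card ι : ℝ) * Fintype.card κ := by
    have := cmb_swap L r b (fun _ _ => (1 : ℝ)) fun i k _ => h1 i k
    simpa using this
  have e3 : ∑ l ∈ L, ∑ i ∈ r l, ∑ k ∈ r l, G' i k = ∑ i, ∑ k, G' i k :=
    cmb_swap L r r G' fun i k hne => h2 i k (by
      rintro rfl
      exact hne (hG0 i))
  have e4 : ∑ i, ∑ i', G i i' = ∑ i, ∑ i', G' i i' + Fintype.card ι := by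
    have := cmb_diag (univ : Finset ι) G G' hG1 hG2
    simpa using this
  have e5 : ∀ l ∈ L, - ∑ i ∈ r l, ∑ k ∈ b l, H i k - c * ∑ i ∈ r l, ∑ k ∈ r l, G' i k
      ≤ ((r l).card : ℝ) * (b l).card := by
    intro l hl'
    have h3 := hl l hl'
    rw [cmb_diag (r l) G G' hG1 hG2] at h3
    linarith
  have e6 := Finset.sum_le_sum e5
  rw [Finset.sum_sub_distrib, Finset.sum_neg_distrib, ← Finset.mul_sum, e1, e2, e3] at e6
  rw [e4]
  linarith

end H66.Iso
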