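import Pool.Agent.H66.Iso.Defs

/-!
# Module Geo (about 80 lines)

The lines spanned by a point of `R` and a point of `B`.

Proof. `L = image of (i, k) ↦ span {v i, b k}` (classical decidability). If a plane
`span {v i, b k}` contains two independent vectors `x, y`, it is equal to `span {x, y}`
(both have dimension 2: `Submodule.eq_of_le_of_finrank_eq`, `finrank_span_pair...`). For `i ≠ i'`
take `k` with `b k ∈ span {v i, v i'}`: then `span {v i, b k} = span {v i, v i'}` is in `L`.
-/

set_option autoImplicit false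

namespace H66.Iso

open Finset

private theorem geo_aux {p q x y : V} (hxy : LinearIndependent ℝ ![x, y])
    (hx : x ∈ Submodule.span ℝ {p, q}) (hy : y ∈ Submodule.span ℝ {p, q}) :
    Submodule.span ℝ {x, y} = Submodule.span ℝ {p, q} := by
  apply Submodule.eq_of_le_of_finrank_le
  · rw [Submodule.span_le]
    intro z hz
    rcases hz with rfl | hz
    · exact hx
    · rw [Set.mem_singleton_iff] at hz
      subst hz
      exact hy
  · have h1 : Module.finrank ℝ (Submodule.span ℝ {x, y}) = 2 := by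
      have h := finrank_span_eq_card hxy
      rw [Matrix.range_cons, Matrix.range_cons, Matrix.range_empty, Set.union_empty,
        Set.singleton_union, Fintype.card_fin] at h
      exact h
    have h2 : Module.finrank ℝ (Submodule.span ℝ {p, q}) ≤ 2 := by
      have h := finrank_span_le_card (R := ℝ) ({p, q} : Set V)
      refine h.trans ?_
      have : ({p, q} : Set V).toFinset ⊆ ({p, q} : Finset V) := by
        intro z hz
        simpa using hz
      exact (Finset.card_le_card this).trans Finset.card_le_two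
    rw [h1]
    exact h2

theorem geo {ι κ : Type} [Fintype ι] [Fintype κ] (v : ι → V) (b : κ → V)
    (hvb : ∀ i k, LinearIndependent ℝ ![v i, b k])
    (hvv : ∀ i j, i ≠ j → LinearIndependent ℝ ![v i, v j])
    (hbl : ∀ i j, i ≠ j → ∃ k, b k ∈ Submodule.span ℝ {v i, v j}) :
    ∃ L : Finset (Submodule ℝ V),
      (∀ l ∈ L, ∃ i k, l = Submodule.span ℝ {v i, b k}) ∧
      (∀ i k, ∃! l, l ∈ L ∧ v i ∈ l ∧ b k ∈ l) ∧
      (∀ i i', i ≠ i' → ∃! l, l ∈ L ∧ v i ∈ l ∧ v i' ∈ l) := by
  classical
  have hL : ∀ l, l ∈ (univ : Finset (ι × κ)).image (fun p => Submodule.span ℝ {v p.1, b p.2}) ↔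
      ∃ i k, l = Submodule.span ℝ {v i, b k} := by
    intro l
    simp only [mem_image, mem_univ, true_and, Prod.exists]
    constructor
    · rintro ⟨i, k, h⟩; exact ⟨i, k, h.symm⟩
    · rintro ⟨i, k, h⟩; exact ⟨i, k, h.symm⟩
  refine ⟨_, fun l hl => (hL l).1 hl, fun i k => ?_, fun i i' hii => ?_⟩
  · refine ⟨Submodule.span ℝ {v i, b k}, ⟨(hL _).2 ⟨i, k, rfl⟩,
      Submodule.subset_span (by simp), Submodule.subset_span (by simp)⟩, ?_⟩
    rintro l ⟨hl, h1, h2⟩
    obtain ⟨i', k', rfl⟩ := (hL l).1 hl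
    exact (geo_aux (hvb i k) h1 h2).symm
  · obtain ⟨k, hk⟩ := hbl i i' hii
    have hi : v i ∈ Submodule.span ℝ {v i, v i'} := Submodule.subset_span (by simp)
    have hi' : v i' ∈ Submodule.span ℝ {v i, v i'} := Submodule.subset_span (by simp)
    have he := geo_aux (hvb i k) hi hk
    refine ⟨Submodule.span ℝ {v i, v i'}, ⟨(hL _).2 ⟨i, k, he.symm⟩, hi, hi'⟩, ?_⟩
    rintro l ⟨hl, h1, h2⟩
    obtain ⟨j, k', rfl⟩ := (hL l).1 hl
    exact (geo_aux (hvv i i' hii) h1 h2).symm

end H66.Iso
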