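import Pool.Agent.H66.Iso.Defs

/-!
# Module Ker (about 70 lines)

On a plane the kernel `2 (x, y)^2 - (x, x)(y, y)` (the cosine of the double angle) is a sum of two
squares.

Proof. Gram-Schmidt for `qf X`: there are `e1, e2` with `qf X e1 e1 ≤ 1`, ... ; simplest: find
`e1 e2 : V` with `qf X e1 e2 = 0` and `span {a, b} ≤ span {e1, e2}`, each of `qf X e1 e1`,
`qf X e2 e2` equal to `1` (if `a, b` are dependent enlarge the span: choose `b'` outside; or treat
the cases separately). For `x ∈ span {a, b}` put `x1 = qf X e1 x`, `x2 = qf X e2 x`, so that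
`x = x1 e1 + x2 e2` and `qf X x y = x1 y1 + x2 y2` on the span; `A x = x1^2 - x2^2`,
`D x = 2 x1 x2`, and `2 (x1 y1 + x2 y2)^2 - (x1^2 + x2^2)(y1^2 + y2^2) = A x A y + D x D y` by
`ring`. (If `a = b = 0` everything is `0`; if the span is a line take `D = 0`, `A x = x1^2`.)
-/

set_option autoImplicit false

namespace H66.Iso

open Matrix

private theorem ker_orth (X : Matrix (Fin 3) (Fin 3) ℝ) (hX : X.PosDef) (a b : V)
    (h : qf X a b = 0) (s t s' t' : ℝ) :
    qf X (s • a + t • b) (s' • a + t' • b)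
      = (qf X a (s • a + t • b) / Real.sqrt (qf X a a))
          * (qf X a (s' • a + t' • b) / Real.sqrt (qf X a a))
        + (qf X b (s • a + t • b) / Real.sqrt (qf X b b))
          * (qf X b (s' • a + t' • b) / Real.sqrt (qf X b b)) := by
  have h' : qf X b a = 0 := by rw [qf_symm hX]; exact h
  have key : ∀ u v : ℝ, ∀ w : V,
      (u * qf X w w / Real.sqrt (qf X w w)) * (v * qf X w w / Real.sqrt (qf X w w))
        = u * v * qf X w w := by
    intro u v w
    have hn := qf_nonneg hX w
    have hs : Real.sqrt (qf X w w) * Real.sqrt (qf X w w) = qf X w w := Real.mul_self_sqrt hn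
    have h1 : qf X w w / Real.sqrt (qf X w w) = Real.sqrt (qf X w w) := Real.div_sqrt
    rw [mul_div_assoc, mul_div_assoc, h1]
    calc u * Real.sqrt (qf X w w) * (v * Real.sqrt (qf X w w))
        = u * v * (Real.sqrt (qf X w w) * Real.sqrt (qf X w w)) := by ring
      _ = u * v * qf X w w := by rw [hs]
  have e1 : ∀ u v : ℝ, qf X a (u • a + v • b) = u * qf X a a := by
    intro u v
    rw [qf_add_right, qf_smul_right, qf_smul_right, h]; ring
  have e2 : ∀ u v : ℝ, qf X b (u • a + v • b) = v * qf X b b := by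
    intro u v
    rw [qf_add_right, qf_smul_right, qf_smul_right, h']; ring
  rw [e1, e1, e2, e2, key, key, qf_add_left, qf_smul_left, qf_smul_left, e1, e2]
  ring

theorem ker (X : Matrix (Fin 3) (Fin 3) ℝ) (hX : X.PosDef) (a b : V) :
    ∃ A D : V → ℝ, ∀ x ∈ Submodule.span ℝ {a, b}, ∀ y ∈ Submodule.span ℝ {a, b},
      2 * (qf X x y) ^ 2 - qf X x x * qf X y y = A x * A y + D x * D y := by
  set c : ℝ := qf X a b / qf X a a with hc
  set b' : V := b + (-c) • a with hb'
  have horth : qf X a b' = 0 := by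
    rw [hb', qf_add_right, qf_smul_right]
    by_cases ha : a = 0
    · subst ha; simp [qf]
    · have h0 := (qf_pos hX ha).ne'
      rw [hc]; field_simp; ring
  have hrep : ∀ x ∈ Submodule.span ℝ {a, b}, ∃ s t : ℝ, x = s • a + t • b' := by
    intro x hx
    obtain ⟨s, t, rfl⟩ := Submodule.mem_span_pair.1 hx
    refine ⟨s + t * c, t, ?_⟩
    rw [hb']
    module
  refine ⟨fun x => (qf X a x / Real.sqrt (qf X a a)) ^ 2 - (qf X b' x / Real.sqrt (qf X b' b')) ^ 2,
    fun x => 2 * (qf X a x / Real.sqrt (qf X a a)) * (qf X b' x / Real.sqrt (qf X b' b')), ?_⟩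
  intro x hx y hy
  obtain ⟨s, t, rfl⟩ := hrep x hx
  obtain ⟨s', t', rfl⟩ := hrep y hy
  rw [ker_orth X hX a b' horth s t s' t', ker_orth X hX a b' horth s t s t,
    ker_orth X hX a b' horth s' t' s' t']
  ring

end H66.Iso
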