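import Pool.Agent.H66.Iso.Defs

/-!
# Module Line (about 80 lines)

The inequality on one line (points `P` of `R` and `Q` of `B` on it, unit vectors `(a, d)` of the
double angles).

Proof. Put `s2 = (sum_P a)^2 + (sum_P d)^2 = sum_P sum_P (a a' + d d')`,
`C = (sum_P a)(sum_Q a') + (sum_P d)(sum_Q d')`, `i = card P ≥ 1`, `j = card Q ≥ 1`.
* every term `a p a' q + d p d' q ≥ -1` (Cauchy-Schwarz), so `C ≥ - i j`;
* `(sum_Q a')^2 + (sum_Q d')^2 ≤ j^2` (all terms of the double sum are `≤ 1`), so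
  `C^2 ≤ s2 j^2` and `C ≥ - s j`, `s = sqrt s2`.
Claim `-C - lam s2 + lam i ≤ i j`. If `i = 1`: `s2 = 1` and `-C ≤ j`. If `i ≥ 2` and `s2 ≥ i`:
`-C ≤ i j`. If `i ≥ 2` and `s2 < i` then `s < i` and
`i j - s j = j (i - s) ≥ i - s ≥ lam (i - s^2)`, because
`(1 - lam) i - s + lam s^2 ≥ 2 (1 - lam) - s + lam s^2 = lam (s - 1/(2 lam))^2 ≥ 0`
(`8 lam (1 - lam) = 1`, `lam_eq`).
-/

set_option autoImplicit false

namespace H66.Iso

open Finset

private theorem line_le_one (a b c e : ℝ) (h : a ^ 2 + b ^ 2 = 1) (h' : c ^ 2 + e ^ 2 = 1) :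
    a * c + b * e ≤ 1 := by
  nlinarith [sq_nonneg (a - c), sq_nonneg (b - e)]

private theorem line_ge_neg_one (a b c e : ℝ) (h : a ^ 2 + b ^ 2 = 1) (h' : c ^ 2 + e ^ 2 = 1) :
    -1 ≤ a * c + b * e := by
  nlinarith [sq_nonneg (a + c), sq_nonneg (b + e)]

private theorem line_double {α β : Type} (P : Finset α) (Q : Finset β) (a d : α → ℝ)
    (a' d' : β → ℝ) :
    ∑ p ∈ P, ∑ q ∈ Q, (a p * a' q + d p * d' q)
      = (∑ p ∈ P, a p) * (∑ q ∈ Q, a' q) + (∑ p ∈ P, d p) * (∑ q ∈ Q, d' q) := by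
  rw [Finset.sum_mul_sum, Finset.sum_mul_sum, ← Finset.sum_add_distrib]
  refine Finset.sum_congr rfl fun p _ => ?_
  rw [← Finset.sum_add_distrib]

theorem line {α β : Type} (P : Finset α) (Q : Finset β) (a d : α → ℝ) (a' d' : β → ℝ)
    (h : ∀ p ∈ P, a p ^ 2 + d p ^ 2 = 1) (h' : ∀ q ∈ Q, a' q ^ 2 + d' q ^ 2 = 1)
    (hP : P.Nonempty) (hQ : Q.Nonempty) :
    - ∑ p ∈ P, ∑ q ∈ Q, (a p * a' q + d p * d' q)
      - lam * ∑ p ∈ P, ∑ p' ∈ P, (a p * a p' + d p * d p') + lam * P.card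
      ≤ (P.card : ℝ) * Q.card := by
  have hi1 : (1 : ℝ) ≤ P.card := by exact_mod_cast hP.card_pos
  have hj1 : (1 : ℝ) ≤ Q.card := by exact_mod_cast hQ.card_pos
  -- the trivial lower bound
  have hC1 : -((P.card : ℝ) * Q.card) ≤ ∑ p ∈ P, ∑ q ∈ Q, (a p * a' q + d p * d' q) := by
    have h1 : ∑ p ∈ P, ∑ q ∈ Q, (-1 : ℝ) ≤ ∑ p ∈ P, ∑ q ∈ Q, (a p * a' q + d p * d' q) :=
      Finset.sum_le_sum fun p hp => Finset.sum_le_sum fun q hq =>
        line_ge_neg_one _ _ _ _ (h p hp) (h' q hq)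
    simpa using h1
  -- the bound of the sum over `Q`
  have hQ2 : (∑ q ∈ Q, a' q) ^ 2 + (∑ q ∈ Q, d' q) ^ 2 ≤ (Q.card : ℝ) ^ 2 := by
    have h1 : ∑ p ∈ Q, ∑ q ∈ Q, (a' p * a' q + d' p * d' q) ≤ ∑ p ∈ Q, ∑ q ∈ Q, (1 : ℝ) :=
      Finset.sum_le_sum fun p hp => Finset.sum_le_sum fun q hq =>
        line_le_one _ _ _ _ (h' p hp) (h' q hq)
    rw [line_double] at h1
    simp only [Finset.sum_const, nsmul_eq_mul, mul_one] at h1
    nlinarith [h1]
  have hS1 : P.card = 1 → ∑ p ∈ P, ∑ p' ∈ P, (a p * a p' + d p * d p') = 1 := by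
    intro hc
    obtain ⟨p, rfl⟩ := Finset.card_eq_one.1 hc
    have := h p (Finset.mem_singleton_self p)
    simp only [Finset.sum_singleton]
    nlinarith [this]
  have hlam := lam_pos
  have hlam1 := lam_lt
  have hlame := lam_eq
  rw [line_double] at hC1 ⊢
  by_cases hc : P.card = 1
  · rw [hS1 hc]
    have : (P.card : ℝ) = 1 := by exact_mod_cast hc
    rw [this] at hC1 ⊢
    linarith
  · have hi2 : (2 : ℝ) ≤ P.card := by
      have h0 : 0 < P.card := hP.card_pos
      have : 2 ≤ P.card := by omega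
      exact_mod_cast this
    rw [line_double]
    set A := ∑ p ∈ P, a p
    set D := ∑ p ∈ P, d p
    set A' := ∑ q ∈ Q, a' q
    set D' := ∑ q ∈ Q, d' q
    set i : ℝ := (P.card : ℝ)
    set j : ℝ := (Q.card : ℝ)
    by_cases hs : i ≤ A * A + D * D
    · nlinarith [mul_nonneg hlam.le (sub_nonneg.2 hs)]
    · have hs' : A * A + D * D < i := not_le.1 hs
      have hs0 : 0 ≤ A * A + D * D := add_nonneg (mul_self_nonneg _) (mul_self_nonneg _)
      set s := Real.sqrt (A * A + D * D) with hsdef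
      have hss : s * s = A * A + D * D := Real.mul_self_sqrt hs0
      have hsn : 0 ≤ s := Real.sqrt_nonneg _
      have hCs : -(A * A' + D * D') ≤ s * j := by
        have h1 : (A * A' + D * D') ^ 2 ≤ (s * j) ^ 2 := by
          have h2 : (A * A' + D * D') ^ 2 ≤ (A * A + D * D) * (A' ^ 2 + D' ^ 2) := by
            nlinarith [sq_nonneg (A * D' - D * A')]
          have h3 : (A * A + D * D) * (A' ^ 2 + D' ^ 2) ≤ (A * A + D * D) * j ^ 2 :=
            mul_le_mul_of_nonneg_left hQ2 hs0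
          calc (A * A' + D * D') ^ 2 ≤ (A * A + D * D) * j ^ 2 := h2.trans h3
            _ = (s * j) ^ 2 := by rw [← hss]; ring
        have h4 : |A * A' + D * D'| ≤ s * j := abs_le_of_sq_le_sq h1 (by positivity)
        linarith [neg_abs_le (A * A' + D * D')]
      have hsi : s < i := by
        by_contra hcon
        have h5 : i ≤ s := not_lt.1 hcon
        nlinarith
      -- the key inequality
      have hkey : lam * (i - s * s) ≤ i - s := by
        have h6 : 0 ≤ (1 - lam) * (i - 2) := mul_nonneg (by linarith) (by linarith)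
        have h7 : 0 ≤ 2 * (1 - lam) - s + lam * (s * s) := by
          have h8 : 4 * lam * (2 * (1 - lam) - s + lam * (s * s)) = (2 * lam * s - 1) ^ 2 := by
            nlinarith [hlame]
          have h9 : 0 ≤ 4 * lam * (2 * (1 - lam) - s + lam * (s * s)) := by
            rw [h8]; positivity
          exact nonneg_of_mul_nonneg_right h9 (by positivity)
        nlinarith
      have hj : i - s ≤ j * (i - s) := by nlinarith
      rw [← hss]
      nlinarith

end H66.Iso
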