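import Pool.Agent.H66.Iso.Defs

/-!
# Module Rich (about 60 lines)

A line with many points of `R` forces many points of `B`.

Proof. For `i` with `v i ∈ span {x, y}` (so `i ≠ i0`) choose `k i` with `b (k i) ∈ span {v i0, v i}`.
The map `k` is injective on these `i`: if `k i = k i'` with `i ≠ i'`, then `b k` is in
`span {v i0, v i} ⊓ span {v i0, v i'}`; as `v i0, v i, v i'` are linearly independent (`v i, v i'`
are independent in the plane `span {x, y}`, which does not contain `v i0`), the intersection is
`span {v i0}`, against `hvb i0 k`.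
-/

set_option autoImplicit false

namespace H66.Iso

open Finset

private theorem rich_pair {p q : V} (h : LinearIndependent ℝ ![p, q]) {a c : ℝ}
    (h0 : a • p + c • q = 0) : a = 0 ∧ c = 0 := by
  rw [LinearIndependent.pair_iff] at h
  exact h a c h0

open Classical in
theorem rich {ι κ : Type} [Fintype ι] [Fintype κ] (v : ι → V) (b : κ → V)
    (hvb : ∀ i k, LinearIndependent ℝ ![v i, b k])
    (hvv : ∀ i j, i ≠ j → LinearIndependent ℝ ![v i, v j])
    (hbl : ∀ i j, i ≠ j → ∃ k, b k ∈ Submodule.span ℝ {v i, v j})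
    (x y : V) (i0 : ι) (h0 : v i0 ∉ Submodule.span ℝ {x, y}) :
    (univ.filter fun i => v i ∈ Submodule.span ℝ {x, y}).card ≤ Fintype.card κ := by
  have hne : ∀ i, v i ∈ Submodule.span ℝ {x, y} → i0 ≠ i := by
    rintro i hi rfl
    exact h0 hi
  have hk : ∀ i : {i // v i ∈ Submodule.span ℝ {x, y}}, ∃ k,
      b k ∈ Submodule.span ℝ {v i0, v i.1} := fun i => hbl i0 i.1 (hne i.1 i.2)
  choose f hf using hk
  have hinj : Function.Injective f := by
    intro i j hij
    by_contra hne'
    have hne'' : i.1 ≠ j.1 := fun h => hne' (Subtype.ext h)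
    have h1 := hf i
    have h2 := hf j
    rw [← hij] at h2
    rw [Submodule.mem_span_pair] at h1 h2
    obtain ⟨a, c, hac⟩ := h1
    obtain ⟨a', c', hac'⟩ := h2
    have h3 : (a - a') • v i0 = c' • v j.1 - c • v i.1 := by
      have : a • v i0 + c • v i.1 = a' • v i0 + c' • v j.1 := hac.trans hac'.symm
      rw [sub_smul]
      rw [sub_eq_sub_iff_add_eq_add]
      exact this.trans (add_comm _ _)
    have h4 : a - a' = 0 := by
      by_contra hz
      apply h0
      have h5 : (a - a') • v i0 ∈ Submodule.span ℝ {x, y} := by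
        rw [h3]
        exact Submodule.sub_mem _ (Submodule.smul_mem _ _ j.2) (Submodule.smul_mem _ _ i.2)
      exact (Submodule.smul_mem_iff _ hz).1 h5
    rw [h4, zero_smul] at h3
    have h6 : (-c) • v i.1 + c' • v j.1 = 0 := by
      rw [neg_smul, neg_add_eq_sub]
      exact h3.symm
    have h7 := (rich_pair (hvv i.1 j.1 hne'') h6).1
    have h8 : c = 0 := neg_eq_zero.1 h7
    have h9 : a • v i0 + (-1 : ℝ) • b (f i) = 0 := by
      rw [← hac, h8]
      simp
    have h10 := (rich_pair (hvb i0 (f i)) h9).2
    norm_num at h10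
  have h := Fintype.card_le_of_injective f hinj
  rwa [Fintype.card_subtype] at h

end H66.Iso
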