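import Pool.Agent.H66.Iso.Low
import Pool.Agent.H66.Iso.Pos
import Pool.Agent.H66.Iso.Ker
import Pool.Agent.H66.Iso.Line
import Pool.Agent.H66.Iso.Cmb
import Pool.Agent.H66.Iso.Geo
import Pool.Agent.H66.Iso.Rich

/-!
# Core: the bound in terms of vectors
-/

set_option autoImplicit false

namespace H66.Iso

open Finset Matrix

/-- The inequality in a given nearly isotropic position. -/
theorem core_pos {ι κ : Type} [Fintype ι] [Fintype κ] (v : ι → V) (b : κ → V)
    (hvb : ∀ i k, LinearIndependent ℝ ![v i, b k])
    (hvv : ∀ i j, i ≠ j → LinearIndependent ℝ ![v i, v j])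
    (hbl : ∀ i j, i ≠ j → ∃ k, b k ∈ Submodule.span ℝ {v i, v j})
    (hv : ∀ i, v i ≠ 0) (hb : ∀ k, b k ≠ 0)
    (ε : ℝ) (X : Matrix (Fin 3) (Fin 3) ℝ) (hX : X.PosDef)
    (hiso : ∀ y : V, ∑ i, (qf X (v i) y) ^ 2 / qf X (v i) (v i)
        ≤ ((Fintype.card ι : ℝ) / 3 + ε) * qf X y y) :
    lam * ((Fintype.card ι : ℝ) ^ 2 / 3 + Fintype.card ι) ≤
      2 / 3 * Fintype.card ι * Fintype.card κ
        + ε * (2 * Fintype.card κ + 2 * lam * Fintype.card ι) := by
  classical
  obtain ⟨L, hL, hL1, hL2⟩ := geo v b hvb hvv hbl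
  set n : ℝ := (Fintype.card ι : ℝ) with hn
  set m : ℝ := (Fintype.card κ : ℝ) with hm
  let G : ι → ι → ℝ := fun i i' =>
    2 * ((qf X (v i) (v i')) ^ 2 / (qf X (v i) (v i) * qf X (v i') (v i'))) - 1
  let H : ι → κ → ℝ := fun i k =>
    2 * ((qf X (v i) (b k)) ^ 2 / (qf X (v i) (v i) * qf X (b k) (b k))) - 1
  have hvp : ∀ i, 0 < qf X (v i) (v i) := fun i => qf_pos hX (hv i)
  have hbp : ∀ k, 0 < qf X (b k) (b k) := fun k => qf_pos hX (hb k)
  have hG : ∀ i, G i i = 1 := by
    intro i
    have := (hvp i).ne'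
    simp only [G]
    field_simp
    ring
  have key := comb L (fun l => univ.filter fun i => v i ∈ l)
    (fun l => univ.filter fun k => b k ∈ l) (by simpa using hL1) (by simpa using hL2) G H hG lam
    (by
      intro l hl
      obtain ⟨i0, k0, rfl⟩ := hL l hl
      obtain ⟨A, D, hAD⟩ := ker X hX (v i0) (b k0)
      have hi0 : v i0 ∈ Submodule.span ℝ {v i0, b k0} := Submodule.subset_span (by simp)
      have hk0 : b k0 ∈ Submodule.span ℝ {v i0, b k0} := Submodule.subset_span (by simp)
      have h := line (univ.filter fun i => v i ∈ Submodule.span ℝ {v i0, b k0})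
        (univ.filter fun k => b k ∈ Submodule.span ℝ {v i0, b k0})
        (fun i => A (v i) / qf X (v i) (v i)) (fun i => D (v i) / qf X (v i) (v i))
        (fun k => A (b k) / qf X (b k) (b k)) (fun k => D (b k) / qf X (b k) (b k))
        (by
          intro p hp
          have hp' := (mem_filter.1 hp).2
          have h := hAD _ hp' _ hp'
          have h0 := (hvp p).ne'
          field_simp
          nlinarith [h])
        (by
          intro p hp
          have hp' := (mem_filter.1 hp).2
          have h := hAD _ hp' _ hp'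
          have h0 := (hbp p).ne'
          field_simp
          nlinarith [h])
        ⟨i0, by simp [hi0]⟩ ⟨k0, by simp [hk0]⟩
      refine le_trans (le_of_eq ?_) h
      congr 1
      congr 1
      · congr 1
        apply sum_congr rfl
        intro p hp
        apply sum_congr rfl
        intro q hq
        have hp' := (mem_filter.1 hp).2
        have hq' := (mem_filter.1 hq).2
        have h := hAD _ hp' _ hq'
        have h0 := (hvp p).ne'
        have h1 := (hbp q).ne'
        simp only [H]
        field_simp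
        linarith [h]
      · congr 1
        apply sum_congr rfl
        intro p hp
        apply sum_congr rfl
        intro q hq
        have hp' := (mem_filter.1 hp).2
        have hq' := (mem_filter.1 hq).2
        have h := hAD _ hp' _ hq'
        have h0 := (hvp p).ne'
        have h1 := (hvp q).ne'
        simp only [G]
        field_simp
        linarith [h])
  have hH : ∑ i, ∑ k, H i k ≤ 2 * m * (n / 3 + ε) - n * m := by
    have : ∑ i, ∑ k, H i k = 2 * (∑ k, (∑ i, (qf X (v i) (b k)) ^ 2 / qf X (v i) (v i))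
        / qf X (b k) (b k)) - n * m := by
      simp only [H, sum_sub_distrib, sum_const, card_univ, nsmul_eq_mul, mul_one]
      congr 1
      rw [sum_comm, mul_sum]
      apply sum_congr rfl
      intro k _
      rw [← mul_sum, sum_div]
      congr 1
      apply sum_congr rfl
      intro i _
      rw [div_div]
    rw [this]
    have : ∑ k, (∑ i, (qf X (v i) (b k)) ^ 2 / qf X (v i) (v i)) / qf X (b k) (b k)
        ≤ ∑ _k : κ, (n / 3 + ε) := by
      apply sum_le_sum
      intro k _
      rw [div_le_iff₀ (hbp k)]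
      exact hiso (b k)
    rw [sum_const, card_univ, nsmul_eq_mul] at this
    linarith
  have hGs : ∑ i, ∑ k, G i k ≤ 2 * n * (n / 3 + ε) - n * n := by
    have : ∑ i, ∑ k, G i k = 2 * (∑ k, (∑ i, (qf X (v i) (v k)) ^ 2 / qf X (v i) (v i))
        / qf X (v k) (v k)) - n * n := by
      simp only [G, sum_sub_distrib, sum_const, card_univ, nsmul_eq_mul, mul_one]
      congr 1
      rw [sum_comm, mul_sum]
      apply sum_congr rfl
      intro k _
      rw [← mul_sum, sum_div]
      congr 1
      apply sum_congr rfl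
      intro i _
      rw [div_div]
    rw [this]
    have : ∑ k, (∑ i, (qf X (v i) (v k)) ^ 2 / qf X (v i) (v i)) / qf X (v k) (v k)
        ≤ ∑ _k : ι, (n / 3 + ε) := by
      apply sum_le_sum
      intro k _
      rw [div_le_iff₀ (hvp k)]
      exact hiso (v k)
    rw [sum_const, card_univ, nsmul_eq_mul] at this
    linarith
  have hlam := lam_pos
  have h3 : lam * (∑ i, ∑ i', G i i' - n) ≤ lam * ((2 * n * (n / 3 + ε) - n * n) - n) :=
    mul_le_mul_of_nonneg_left (by linarith) hlam.le
  have key' : - (∑ i, ∑ k, H i k) - lam * (∑ i, ∑ i', G i i' - n) ≤ n * m := key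
  nlinarith [key', h3, hH]

/-- The bound for vectors. -/
theorem core {ι κ : Type} [Fintype ι] [Fintype κ] (v : ι → V) (b : κ → V)
    (hvb : ∀ i k, LinearIndependent ℝ ![v i, b k])
    (hvv : ∀ i j, i ≠ j → LinearIndependent ℝ ![v i, v j])
    (hbl : ∀ i j, i ≠ j → ∃ k, b k ∈ Submodule.span ℝ {v i, v j})
    (hv : ∀ i, v i ≠ 0) (hb : ∀ k, b k ≠ 0)
    (hn : 3 ≤ Fintype.card ι) (hsp : ∀ x y : V, ∃ i, v i ∉ Submodule.span ℝ {x, y}) :
    lam / 2 * ((Fintype.card ι : ℝ) + 3) ≤ Fintype.card κ := by
  classical
  by_cases h2 : ∀ x y : V, 3 * (univ.filter fun i => v i ∈ Submodule.span ℝ {x, y}).card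
      ≤ 2 * Fintype.card ι
  · have h1 : ∀ x : V, 3 * (univ.filter fun i => v i ∈ Submodule.span ℝ {x}).card
        ≤ Fintype.card ι := by
      intro x
      have : (univ.filter fun i => v i ∈ Submodule.span ℝ {x}).card ≤ 1 := by
        rw [card_le_one]
        intro i hi j hj
        by_contra hij
        have hi' := (mem_filter.1 hi).2
        have hj' := (mem_filter.1 hj).2
        rw [Submodule.mem_span_singleton] at hi' hj'
        obtain ⟨s, hs⟩ := hi'
        obtain ⟨t, ht⟩ := hj'
        have hli := hvv i j hij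
        rw [LinearIndependent.pair_iff] at hli
        have := hli t (-s) (by rw [← hs, ← ht, smul_smul, smul_smul, ← add_smul]; ring_nf; simp)
        have ht0 : t = 0 := this.1
        rw [ht0, zero_smul] at ht
        exact hv j ht.symm
      omega
    have hlow := low v hv h1 h2
    have hall : ∀ ε : ℝ, 0 < ε → lam * ((Fintype.card ι : ℝ) ^ 2 / 3 + Fintype.card ι) ≤
      2 / 3 * Fintype.card ι * Fintype.card κ
        + ε * (2 * Fintype.card κ + 2 * lam * Fintype.card ι) := by
      intro ε hε
      obtain ⟨X, hX, hiso⟩ := iso_pos v hv hlow ε hε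
      exact core_pos v b hvb hvv hbl hv hb ε X hX hiso
    have hn' : (3 : ℝ) ≤ Fintype.card ι := by exact_mod_cast hn
    have hle : lam * ((Fintype.card ι : ℝ) ^ 2 / 3 + Fintype.card ι) ≤
        2 / 3 * Fintype.card ι * Fintype.card κ := by
      have hK : 0 ≤ 2 * (Fintype.card κ : ℝ) + 2 * lam * Fintype.card ι := by
        have := lam_pos
        positivity
      apply le_of_forall_pos_le_add
      intro δ hδ
      have h := hall (δ / (2 * (Fintype.card κ : ℝ) + 2 * lam * Fintype.card ι + 1))
        (by positivity)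
      refine le_trans h ?_
      have : δ / (2 * (Fintype.card κ : ℝ) + 2 * lam * Fintype.card ι + 1) *
          (2 * (Fintype.card κ : ℝ) + 2 * lam * Fintype.card ι) ≤ δ := by
        rw [div_mul_eq_mul_div, div_le_iff₀ (by positivity)]
        nlinarith
      linarith
    have hpos : 0 < (Fintype.card ι : ℝ) := by linarith
    by_contra hcon
    push Not at hcon
    nlinarith [mul_lt_mul_of_pos_left hcon hpos]
  · push Not at h2
    obtain ⟨x, y, hxy⟩ := h2
    obtain ⟨i0, hi0⟩ := hsp x y
    have hr := rich v b hvb hvv hbl x y i0 hi0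
    have hlt : (univ.filter fun i => v i ∈ Submodule.span ℝ {x, y}).card < Fintype.card ι := by
      rw [← card_univ]
      apply card_lt_card
      rw [ssubset_univ_iff]
      intro h
      have : i0 ∈ (univ.filter fun i => v i ∈ Submodule.span ℝ {x, y}) := by rw [h]; simp
      exact hi0 (mem_filter.1 this).2
    have h3 : 2 * Fintype.card ι + 1 ≤ 3 * Fintype.card κ := by omega
    have h4 : 4 ≤ Fintype.card ι := by omega
    have h3' : 2 * (Fintype.card ι : ℝ) + 1 ≤ 3 * Fintype.card κ := by exact_mod_cast h3
    have h4' : (4 : ℝ) ≤ Fintype.card ι := by exact_mod_cast h4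
    have hs : Real.sqrt 2 ≤ 1.4143 := by
      rw [Real.sqrt_le_left (by norm_num)]; norm_num
    have hl : lam ≤ 0.853575 := by unfold lam; linarith
    nlinarith
end H66.Iso
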