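import Mathlib

/-!
# Isotropic position and blocking sets: definitions

`V` is real three-space, `qf X` the bilinear form of a matrix `X` (an inner product when `X` is
positive definite), `lam = (2 + sqrt 2) / 4`.
-/

set_option autoImplicit false

namespace H66.Iso

open Matrix

/-- real three-space; its lines are the points of the real projective plane -/
abbrev V := Fin 3 → ℝ

/-- the bilinear form with matrix `X` -/
def qf (X : Matrix (Fin 3) (Fin 3) ℝ) (x y : V) : ℝ := x ⬝ᵥ (X *ᵥ y)

/-- the constant `(2 + sqrt 2) / 4` -/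
noncomputable def lam : ℝ := (2 + Real.sqrt 2) / 4

theorem lam_eq : 8 * lam * (1 - lam) = 1 := by
  have h : Real.sqrt 2 * Real.sqrt 2 = 2 := Real.mul_self_sqrt (by norm_num)
  unfold lam
  nlinarith [h]

theorem lam_pos : 0 < lam := by
  unfold lam; positivity

theorem lam_lt : lam < 1 := by
  have h : Real.sqrt 2 < 2 := by
    rw [Real.sqrt_lt' (by norm_num)]; norm_num
  unfold lam; linarith

theorem qf_add_left (X : Matrix (Fin 3) (Fin 3) ℝ) (x y z : V) :
    qf X (x + y) z = qf X x z + qf X y z := by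
  simp [qf, add_dotProduct]

theorem qf_add_right (X : Matrix (Fin 3) (Fin 3) ℝ) (x y z : V) :
    qf X x (y + z) = qf X x y + qf X x z := by
  simp [qf, mulVec_add, dotProduct_add]

theorem qf_smul_left (X : Matrix (Fin 3) (Fin 3) ℝ) (t : ℝ) (x y : V) :
    qf X (t • x) y = t * qf X x y := by
  simp [qf]

theorem qf_smul_right (X : Matrix (Fin 3) (Fin 3) ℝ) (t : ℝ) (x y : V) :
    qf X x (t • y) = t * qf X x y := by
  simp [qf, mulVec_smul]

theorem qf_symm {X : Matrix (Fin 3) (Fin 3) ℝ} (hX : X.PosDef) (x y : V) :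
    qf X x y = qf X y x := by
  have h : Xᵀ = X := by simpa using hX.isHermitian.eq
  unfold qf
  rw [dotProduct_mulVec, ← mulVec_transpose, h, dotProduct_comm]

theorem qf_pos {X : Matrix (Fin 3) (Fin 3) ℝ} (hX : X.PosDef) {x : V} (hx : x ≠ 0) :
    0 < qf X x x := by
  have := hX.dotProduct_mulVec_pos hx
  simpa [qf] using this

theorem qf_nonneg {X : Matrix (Fin 3) (Fin 3) ℝ} (hX : X.PosDef) (x : V) :
    0 ≤ qf X x x := by
  by_cases hx : x = 0
  · subst hx; simp [qf]
  · exact (qf_pos hX hx).le

/-- Cauchy-Schwarz. -/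
theorem qf_cs {X : Matrix (Fin 3) (Fin 3) ℝ} (hX : X.PosDef) (x y : V) :
    (qf X x y) ^ 2 ≤ qf X x x * qf X y y := by
  by_cases hy : y = 0
  · subst hy; simp [qf]
  · have h0 := qf_pos hX hy
    have h := qf_nonneg hX (qf X y y • x + (-(qf X x y)) • y)
    rw [qf_add_left, qf_add_right, qf_add_right, qf_smul_left, qf_smul_left, qf_smul_left,
      qf_smul_left, qf_smul_right, qf_smul_right, qf_smul_right, qf_smul_right,
      qf_symm hX y x] at h
    have h' : 0 ≤ qf X y y * (qf X x x * qf X y y - (qf X x y) ^ 2) := by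
      nlinarith [h]
    nlinarith [nonneg_of_mul_nonneg_right h' h0]

end H66.Iso
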