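import Pool.Agent.H66.Iso.Core
import Pool.Agent.H64.BL.FEx
import Pool.Agent.H97.Block.Data

/-!
# The bound for blocking sets of the real plane
-/

set_option autoImplicit false

namespace H66.Iso

open Finset H64.BL

/-- the matrix with rows `x y z` has determinant `det3 x y z` -/
theorem det_eq (x y z : V) : Matrix.det (Matrix.of ![x, y, z]) = det3 x y z := by
  rw [Matrix.det_fin_three]
  simp [det3]
  ring

theorem li_iff (x y z : V) : LinearIndependent ℝ ![x, y, z] ↔ det3 x y z ≠ 0 := by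
  rw [← det_eq]
  have h := Matrix.linearIndependent_rows_iff_isUnit (A := Matrix.of ![x, y, z])
  rw [Matrix.isUnit_iff_isUnit_det, isUnit_iff_ne_zero] at h
  exact h

theorem mem_of_det3 {x y z : V} (h : LinearIndependent ℝ ![x, y]) (h0 : det3 x y z = 0) :
    z ∈ Submodule.span ℝ {x, y} := by
  by_contra hz
  have h1 : LinearIndependent ℝ ![z, x, y] := by
    show LinearIndependent ℝ (Fin.cons z ![x, y])
    rw [linearIndependent_finCons]
    refine ⟨h, ?_⟩
    simpa [Matrix.range_cons, Set.pair_comm] using hz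
  rw [li_iff] at h1
  apply h1
  rw [← h0]
  simp only [det3]
  ring

theorem det3_span {x y z w t : V} (hz : z ∈ Submodule.span ℝ {x, y})
    (hw : w ∈ Submodule.span ℝ {x, y}) (ht : t ∈ Submodule.span ℝ {x, y}) : det3 z w t = 0 := by
  rw [Submodule.mem_span_pair] at hz hw ht
  obtain ⟨a, b, rfl⟩ := hz
  obtain ⟨c, d, rfl⟩ := hw
  obtain ⟨e, f, rfl⟩ := ht
  simp only [det3, Pi.add_apply, Pi.smul_apply, smul_eq_mul]
  ring

theorem hom_li {P Q : ℝ × ℝ} (h : P ≠ Q) : LinearIndependent ℝ ![hom P, hom Q] := by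
  rw [LinearIndependent.pair_iff]
  intro s t hst
  have h0 := congrFun hst 0
  have h1 := congrFun hst 1
  have h2 := congrFun hst 2
  simp [hom] at h0 h1 h2
  have ht : t = -s := by linarith
  subst ht
  have h0' : s * (P.1 - Q.1) = 0 := by linarith
  have h1' : s * (P.2 - Q.2) = 0 := by linarith
  by_cases hs : s = 0
  · subst hs; simp
  · exfalso
    apply h
    refine Prod.ext ?_ ?_
    · have := (mul_eq_zero.1 h0').resolve_left hs
      linarith
    · have := (mul_eq_zero.1 h1').resolve_left hs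
      linarith

theorem rep_li {P : ℝ × ℝ} {b : PPlane} (h : toPP P ≠ b) : LinearIndependent ℝ ![hom P, b.rep] := by
  rw [LinearIndependent.pair_iff' (hom_ne_zero P)]
  intro a ha
  apply h
  rw [← b.mk_rep]
  unfold toPP
  rw [Projectivization.mk_eq_mk_iff']
  have ha0 : a ≠ 0 := by
    rintro rfl
    exact b.rep_nonzero (by simpa using ha.symm)
  refine ⟨a⁻¹, ?_⟩
  rw [← ha, smul_smul, inv_mul_cancel₀ ha0, one_smul]

/-- The bound. -/
theorem blocks_bound (R : Finset (ℝ × ℝ)) (B : Finset PPlane) (hR : NotCol R)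
    (hB : H64.BL.Blocks R B) : (2 + Real.sqrt 2) / 8 * ((R.card : ℝ) + 3) ≤ B.card := by
  obtain ⟨P, hP, Q, hQ, T, hT, hd⟩ := hR
  have hPQ : P ≠ Q := by
    rintro rfl
    apply hd; simp only [det3]; ring
  have hPT : P ≠ T := by
    rintro rfl
    apply hd; simp only [det3]; ring
  have hQT : Q ≠ T := by
    rintro rfl
    apply hd; simp only [det3]; ring
  have h := core (fun i : R => hom i.1) (fun k : B => k.1.rep)
    (fun i k => rep_li fun h => hB.1 i.1 i.2 (h ▸ k.2))
    (fun i j hij => hom_li fun h => hij (Subtype.ext h))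
    (fun i j hij => by
      obtain ⟨b, hb, h⟩ := hB.2 i.1 i.2 j.1 j.2 (fun h => hij (Subtype.ext h))
      exact ⟨⟨b, hb⟩, mem_of_det3 (hom_li fun h => hij (Subtype.ext h)) h⟩)
    (fun i => hom_ne_zero i.1) (fun k => k.1.rep_nonzero)
    (by
      rw [Fintype.card_coe]
      classical
      have : ({P, Q, T} : Finset (ℝ × ℝ)).card = 3 := by
        rw [card_eq_three]
        exact ⟨P, Q, T, hPQ, hPT, hQT, rfl⟩
      rw [← this]
      apply card_le_card
      intro x hx
      simp only [mem_insert, mem_singleton] at hx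
      rcases hx with rfl | rfl | rfl <;> assumption)
    (by
      intro x y
      by_contra hcon
      push Not at hcon
      exact hd (det3_span (hcon ⟨P, hP⟩) (hcon ⟨Q, hQ⟩) (hcon ⟨T, hT⟩)))
  simp only [Fintype.card_coe] at h
  have e : (2 + Real.sqrt 2) / 8 = lam / 2 := by unfold lam; ring
  rw [e]; exact h

open Pool.Agent.H97.Block in
/-- the same for helper97's definitions -/
theorem blocks_bound' (R : Finset (ℝ × ℝ)) (B : Finset PP)
    (hR : ¬ Collinear ℝ (R : Set (ℝ × ℝ))) (hB : Pool.Agent.H97.Block.Blocks R B) :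
    (2 + Real.sqrt 2) / 8 * ((R.card : ℝ) + 3) ≤ B.card := by
  apply blocks_bound R B
  · by_contra hcon
    apply hR
    unfold NotCol at hcon
    push Not at hcon
    rcases Set.subsingleton_or_nontrivial (R : Set (ℝ × ℝ)) with hs | hnt
    · rcases hs.eq_empty_or_singleton with h | ⟨x, h⟩
      · rw [h]; exact collinear_empty ℝ _
      · rw [h]; exact collinear_singleton ℝ _
    · obtain ⟨P, hP, Q, hQ, hPQ⟩ := hnt
      rw [collinear_iff_of_mem hP]
      refine ⟨(Q.1 - P.1, Q.2 - P.2), ?_⟩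
      intro T hT
      have h := hcon P hP Q hQ T hT
      rw [det3_hom] at h
      by_cases h1 : Q.1 - P.1 = 0
      · have h2 : Q.2 - P.2 ≠ 0 := by
          intro h2
          apply hPQ
          refine Prod.ext ?_ ?_ <;> linarith
        refine ⟨(T.2 - P.2) / (Q.2 - P.2), ?_⟩
        have hT1 : T.1 - P.1 = 0 := by
          rw [h1, zero_mul, zero_sub, neg_eq_zero] at h
          exact (mul_eq_zero.1 h).resolve_right h2
        refine Prod.ext ?_ ?_
        · simp [h1]; linarith
        · simp; field_simp; ring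
      · refine ⟨(T.1 - P.1) / (Q.1 - P.1), ?_⟩
        refine Prod.ext ?_ ?_
        · simp; field_simp; ring
        · simp; field_simp; linarith
  · refine ⟨fun P hP => hB.1 P hP, ?_⟩
    intro P hP Q hQ hPQ
    have hmem : ∀ T : ℝ × ℝ, det3 (hom P) (hom Q) (hom T) = 0 →
        emb T ∈ pline ![(hom P) 1 * (hom Q) 2 - (hom P) 2 * (hom Q) 1,
          (hom P) 2 * (hom Q) 0 - (hom P) 0 * (hom Q) 2,
          (hom P) 0 * (hom Q) 1 - (hom P) 1 * (hom Q) 0] := by
      intro T hT
      unfold emb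
      rw [mem_pline]
      rw [← hT]
      simp [det3, hom]
      ring
    obtain ⟨b, hb, h⟩ := hB.2 ![(hom P) 1 * (hom Q) 2 - (hom P) 2 * (hom Q) 1,
          (hom P) 2 * (hom Q) 0 - (hom P) 0 * (hom Q) 2,
          (hom P) 0 * (hom Q) 1 - (hom P) 1 * (hom Q) 0] (by
        intro h0
        have e0 := congrFun h0 0
        have e1 := congrFun h0 1
        simp [hom] at e0 e1
        apply hPQ
        refine Prod.ext ?_ ?_ <;> linarith)
      ⟨P, hP, Q, hQ, hPQ, hmem P (by simp only [det3]; ring), hmem Q (by simp only [det3]; ring)⟩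
    refine ⟨b, hb, ?_⟩
    unfold OnLine
    unfold pline at h
    rw [Set.mem_ofPred_eq] at h
    rw [← h]
    simp [det3]
    ring

open Pool.Agent.H97.Block in
/-- blocking sets exist -/
theorem nonempty97 (n : ℕ) (hn : 3 ≤ n) :
    {k | ∃ R : Finset (ℝ × ℝ), R.card = n ∧ ¬ Collinear ℝ (R : Set (ℝ × ℝ)) ∧
    ∃ B : Finset PP, B.card = k ∧ Pool.Agent.H97.Block.Blocks R B}.Nonempty := by
  obtain ⟨m, R, B, hc, hR, hB, hm⟩ := block_exists n hn
  refine ⟨m, R, hc, ?_, B, hm, fun P hP => hB.1 P hP, ?_⟩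
  · intro hcol
    obtain ⟨P, hP, Q, hQ, T, hT, hd⟩ := hR
    apply hd
    have := Pool.Agent.H97.Block.dt_zero_of_collinear hcol hP hQ hT
    rw [← this]
    simp [det3, hom, Pool.Agent.H97.Block.dt]
    ring
  · rintro u hu ⟨P, hP, Q, hQ, hPQ, hPu, hQu⟩
    obtain ⟨b, hb, h⟩ := hB.2 P hP Q hQ hPQ
    refine ⟨b, hb, ?_⟩
    have hs := mem_of_det3 (hom_li hPQ) h
    rw [Submodule.mem_span_pair] at hs
    obtain ⟨s, t, hst⟩ := hs
    unfold emb at hPu hQu
    rw [mem_pline] at hPu hQu
    unfold pline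
    rw [Set.mem_ofPred_eq, ← hst]
    simp [hom] at hPu hQu ⊢
    linear_combination s * hPu + t * hQu

open Pool.Agent.H97.Block in
theorem f_bound (n : ℕ) (hn : 3 ≤ n) : (2 + Real.sqrt 2) / 8 * ((n : ℝ) + 3) ≤ f n := by
  obtain ⟨R, hc, hR, B, hk, hB⟩ := Nat.sInf_mem (nonempty97 n hn)
  have h := blocks_bound' R B hR hB
  rw [hc, hk] at h
  exact h

open Pool.Agent.H97.Block in
theorem f_ten : f 10 = 6 := by
  apply le_antisymm f10
  have h := f_bound 10 (by norm_num)
  have hs : (1.414 : ℝ) ≤ Real.sqrt 2 := by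
    apply Real.le_sqrt_of_sq_le; norm_num
  have h5 : (5 : ℝ) < f 10 := by
    norm_num at h
    linarith
  have : 5 < f 10 := by exact_mod_cast h5
  omega

end H66.Iso
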