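import Pool.Agent.H66.Iso.Defs

/-!
# Module Spec (about 60 lines)

Diagonalisation of a positive definite `3 x 3` matrix with ordered eigenvalues.

Proof: `Matrix.IsHermitian.spectral_theorem`, `Matrix.IsHermitian.eigenvectorBasis`,
`Matrix.IsHermitian.det_eq_prod_eigenvalues`, `Matrix.PosDef.eigenvalues_pos`; order the
eigenvalues with a permutation (`Tuple.sort`) of `Fin 3`. For `v = sum_k (e k ⬝ᵥ v) e k` use the
orthonormal basis.
-/

set_option autoImplicit false

namespace H66.Iso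

open Matrix

theorem spec (X : Matrix (Fin 3) (Fin 3) ℝ) (hX : X.PosDef) :
    ∃ (e : Fin 3 → V) (l : Fin 3 → ℝ), (∀ i j, e i ⬝ᵥ e j = if i = j then 1 else 0) ∧
      0 < l 0 ∧ l 0 ≤ l 1 ∧ l 1 ≤ l 2 ∧ X.det = l 0 * l 1 * l 2 ∧
      ∀ x : V, qf X x x = l 0 * (e 0 ⬝ᵥ x) ^ 2 + l 1 * (e 1 ⬝ᵥ x) ^ 2 + l 2 * (e 2 ⬝ᵥ x) ^ 2 := by
  have hH : X.IsHermitian := hX.isHermitian
  let b := hH.eigenvectorBasis
  let μ : Fin 3 → ℝ := hH.eigenvalues
  let f : Fin 3 → V := fun k => WithLp.ofLp (b k)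
  let σ : Equiv.Perm (Fin 3) := Tuple.sort μ
  have hmono : Monotone (μ ∘ σ) := Tuple.monotone_sort μ
  have horth : ∀ i j, f i ⬝ᵥ f j = if i = j then 1 else 0 := by
    intro i j
    have h1 := orthonormal_iff_ite.1 b.orthonormal i j
    rw [← h1]
    simp only [f, EuclideanSpace.inner_eq_star_dotProduct, star_trivial]
    exact dotProduct_comm _ _
  have heig : ∀ k, X *ᵥ f k = μ k • f k := fun k => hH.mulVec_eigenvectorBasis k
  have hrepr : ∀ x : V, ∑ k, (f k ⬝ᵥ x) • f k = x := by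
    intro x
    have h1 := b.sum_repr' (WithLp.toLp 2 x)
    have h2 := congrArg WithLp.ofLp h1
    simp only [WithLp.ofLp_sum, WithLp.ofLp_smul] at h2
    refine Eq.trans ?_ h2
    apply Finset.sum_congr rfl
    intro k _
    congr 1
    simp only [f, EuclideanSpace.inner_eq_star_dotProduct, star_trivial]
    rw [dotProduct_comm]
  refine ⟨fun k => f (σ k), fun k => μ (σ k), ?_, ?_, ?_, ?_, ?_, ?_⟩
  · intro i j
    rw [horth]
    simp
  · exact hX.eigenvalues_pos _
  · exact hmono (by decide)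
  · exact hmono (by decide)
  · rw [hH.det_eq_prod_eigenvalues]
    have h1 : ∏ i, μ (σ i) = ∏ i, μ i := Equiv.prod_comp σ μ
    rw [Fin.prod_univ_three] at h1
    exact h1.symm
  · intro x
    have h1 : X *ᵥ x = ∑ k, (μ k * (f k ⬝ᵥ x)) • f k := by
      conv_lhs => rw [← hrepr x]
      rw [mulVec_sum]
      apply Finset.sum_congr rfl
      intro k _
      rw [mulVec_smul, heig, smul_smul, mul_comm]
    have h2 : qf X x x = ∑ k, μ k * (f k ⬝ᵥ x) ^ 2 := by
      unfold qf
      rw [h1, dotProduct_sum]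
      apply Finset.sum_congr rfl
      intro k _
      rw [dotProduct_smul, dotProduct_comm x (f k), smul_eq_mul]
      ring
    rw [h2, ← Equiv.sum_comp σ (fun k => μ k * (f k ⬝ᵥ x) ^ 2), Fin.sum_univ_three]

end H66.Iso
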