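import Pool.Agent.H66.Iso.Defs

/-!
# Module Upd (about 60 lines)

Rank one update of a positive definite matrix.

Proof. `X' = X - s • vecMulVec (X *ᵥ y) (X *ᵥ y)`. Then `qf X' x z = qf X x z - s (qf X x y)(qf X y z)`
by computation (`X` symmetric), `qf X' x x ≥ (1 - s) qf X x x > 0` by Cauchy-Schwarz `qf_cs`.
`det X' = det X * det (1 - s • vecMulVec y (X *ᵥ y)) = det X * (1 - s)` by
`Matrix.det_one_add_replicateCol_mul_replicateRow` or `Matrix.det_one_add_mul_comm`, or simply by
`Matrix.det_fin_three` and `ring`-type computation.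
-/

set_option autoImplicit false

namespace H66.Iso

open Matrix

theorem upd (X : Matrix (Fin 3) (Fin 3) ℝ) (hX : X.PosDef) (y : V) (hy : qf X y y = 1) (s : ℝ)
    (hs0 : 0 < s) (hs1 : s < 1) :
    ∃ X' : Matrix (Fin 3) (Fin 3) ℝ, X'.PosDef ∧ X'.det = (1 - s) * X.det ∧
      ∀ x z : V, qf X' x z = qf X x z - s * (qf X x y * qf X y z) := by
  have hqf : ∀ x z : V, qf (X - s • vecMulVec (X *ᵥ y) (X *ᵥ y)) x z =
      qf X x z - s * (qf X x y * qf X y z) := by
    intro x z
    have h1 : (X *ᵥ y) ⬝ᵥ z = qf X y z := by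
      rw [qf_symm hX y z]
      unfold qf
      rw [dotProduct_comm]
    unfold qf at *
    rw [sub_mulVec, smul_mulVec, vecMulVec_mulVec, dotProduct_sub, dotProduct_smul]
    rw [h1]
    simp only [op_smul_eq_smul, dotProduct_smul, smul_eq_mul]
    ring
  refine ⟨X - s • vecMulVec (X *ᵥ y) (X *ᵥ y), ?_, ?_, hqf⟩
  · have hXt : Xᵀ = X := by simpa using hX.isHermitian.eq
    apply Matrix.PosDef.of_dotProduct_mulVec_pos
    · rw [Matrix.IsHermitian, Matrix.conjTranspose_eq_transpose_of_trivial, transpose_sub,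
        transpose_smul, hXt, transpose_vecMulVec]
    · intro x hx
      have h1 : star x ⬝ᵥ (X - s • vecMulVec (X *ᵥ y) (X *ᵥ y)) *ᵥ x =
          qf (X - s • vecMulVec (X *ᵥ y) (X *ᵥ y)) x x := by
        simp [qf]
      rw [h1, hqf]
      have h2 := qf_cs hX x y
      have h3 := qf_pos hX hx
      rw [hy, mul_one] at h2
      rw [qf_symm hX y x]
      nlinarith
  · have h1 : X - s • vecMulVec (X *ᵥ y) (X *ᵥ y) =
        X * (1 + replicateCol Unit (-(s • y)) * replicateRow Unit (X *ᵥ y)) := by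
      rw [← vecMulVec_eq, Matrix.mul_add, Matrix.mul_one, mul_vecMulVec, mulVec_neg,
        mulVec_smul, neg_vecMulVec, smul_vecMulVec, sub_eq_add_neg]
    rw [h1, det_mul, det_one_add_replicateCol_mul_replicateRow]
    have h2 : (X *ᵥ y) ⬝ᵥ (-(s • y)) = -s := by
      rw [dotProduct_neg, dotProduct_smul, dotProduct_comm]
      unfold qf at hy
      rw [hy]
      simp
    rw [h2]
    ring

end H66.Iso
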